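import Mathlib

/-!
There are infinitely many deficient KL-primitive numbers.

For squarefree `n` one has `KL n = σ(n) * (∑_{p ∣ n} k(p) - log 2)` with
`k(p) = p/(p+1) * log (p/(p-1))`.  Take `n = 2 * p_1 ⋯ p_t`, the `p_i` being the consecutive primes
beyond a large bound `X`, stopping at the first moment `KL` becomes non-negative.
-/

namespace Pool.Agent.Results.MP_8dd099_nt.DeficientKLPrimitiveInfinite

open Finset

/-- `KL n = ∑_{d ∣ n} d log (d / (2 φ(d)))`. -/
noncomputable def KL (n : ℕ) : ℝ :=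
  ∑ d ∈ n.divisors, (d : ℝ) * Real.log ((d : ℝ) / (2 * (Nat.totient d : ℝ)))

/-- `n` is KL-primitive: `KL n ≥ 0` and `KL d < 0` for each proper divisor `d` of `n`. -/
def KLPrimitive (n : ℕ) : Prop :=
  0 < n ∧ 0 ≤ KL n ∧ ∀ d : ℕ, d ∣ n → d < n → KL d < 0

/-- `n` is deficient: the sum of the divisors of `n` is less than `2 n`. -/
def IsDeficient (n : ℕ) : Prop :=
  0 < n ∧ ∑ d ∈ n.divisors, d < 2 * n

/-- `k p = p/(p+1) * log (p/(p-1))`. -/
noncomputable def k (p : ℕ) : ℝ :=
  (p : ℝ) / ((p : ℝ) + 1) * Real.log ((p : ℝ) / ((p : ℝ) - 1))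

lemma log_upper {t : ℝ} (ht : 1 ≤ t) : Real.log t ≤ (t - t⁻¹) / 2 := by
  have h0 : 0 < t := by linarith
  rw [← Real.sinh_log h0]
  exact Real.self_le_sinh_iff.mpr (Real.log_nonneg ht)

lemma k_lower {p : ℕ} (hp : 2 ≤ p) : 2 * (p : ℝ) / (((p : ℝ) + 1) * (2 * p - 1)) ≤ k p := by
  have hp' : (2 : ℝ) ≤ p := by exact_mod_cast hp
  have h := Real.le_log_one_add_of_nonneg (x := 1 / ((p : ℝ) - 1)) (by
    apply div_nonneg <;> linarith)
  have e1 : 1 + 1 / ((p : ℝ) - 1) = (p : ℝ) / ((p : ℝ) - 1) := by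
    have : (p : ℝ) - 1 ≠ 0 := by linarith
    field_simp
    ring
  have e2 : 2 * (1 / ((p : ℝ) - 1)) / (1 / ((p : ℝ) - 1) + 2) = 2 / (2 * p - 1) := by
    have h1 : (p : ℝ) - 1 ≠ 0 := by linarith
    have h2 : 2 * (p : ℝ) - 1 ≠ 0 := by linarith
    have h3 : 1 / ((p : ℝ) - 1) + 2 ≠ 0 := by
      have : 0 < 1 / ((p : ℝ) - 1) := by
        apply div_pos <;> linarith
      linarith
    rw [div_eq_div_iff h3 h2]
    field_simp
    ring
  rw [e1, e2] at h
  unfold k
  have h4 : 0 ≤ (p : ℝ) / ((p : ℝ) + 1) := by positivity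
  have h5 := mul_le_mul_of_nonneg_left h h4
  refine le_trans (le_of_eq ?_) h5
  have h1 : (p : ℝ) + 1 ≠ 0 := by linarith
  have h2 : 2 * (p : ℝ) - 1 ≠ 0 := by linarith
  field_simp

lemma k_upper {p : ℕ} (hp : 2 ≤ p) :
    k p ≤ (2 * (p : ℝ) - 1) / (2 * (((p : ℝ) - 1) * ((p : ℝ) + 1))) := by
  have hp' : (2 : ℝ) ≤ p := by exact_mod_cast hp
  have h1 : 0 < (p : ℝ) - 1 := by linarith
  have h := log_upper (t := (p : ℝ) / ((p : ℝ) - 1)) (by
    rw [le_div_iff₀ h1]; linarith)
  unfold k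
  have h4 : 0 ≤ (p : ℝ) / ((p : ℝ) + 1) := by positivity
  have h5 := mul_le_mul_of_nonneg_left h h4
  refine le_trans h5 (le_of_eq ?_)
  have h2 : (p : ℝ) + 1 ≠ 0 := by linarith
  have h3 : (p : ℝ) ≠ 0 := by linarith
  have h6 : (p : ℝ) - 1 ≠ 0 := by linarith
  rw [inv_div]
  field_simp
  ring

lemma k_pos {p : ℕ} (hp : 2 ≤ p) : 0 < k p := by
  have hp' : (2 : ℝ) ≤ p := by exact_mod_cast hp
  refine lt_of_lt_of_le ?_ (k_lower hp)
  apply div_pos
  · linarith
  · apply mul_pos <;> linarith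

lemma k_succ_le {p : ℕ} (hp : 2 ≤ p) : k (p + 1) ≤ k p := by
  have hp' : (2 : ℝ) ≤ p := by exact_mod_cast hp
  refine le_trans (k_upper (by omega)) (le_trans ?_ (k_lower hp))
  push_cast
  have h1 : 0 < 2 * (((p : ℝ) + 1 - 1) * ((p : ℝ) + 1 + 1)) := by
    have : 0 < ((p : ℝ) + 1 - 1) := by linarith
    positivity
  have h2 : 0 < ((p : ℝ) + 1) * (2 * p - 1) := by
    have : 0 < (2 * (p : ℝ) - 1) := by linarith
    positivity
  rw [div_le_div_iff₀ h1 h2]
  nlinarith [sq_nonneg (p : ℝ)]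

lemma k_anti {p q : ℕ} (hp : 2 ≤ p) (hpq : p ≤ q) : k q ≤ k p := by
  induction q, hpq using Nat.le_induction with
  | base => exact le_rfl
  | succ m hm ih => exact le_trans (k_succ_le (by omega)) ih

/-- `log (1 + 1/p) ≤ k p`. -/
lemma log_succ_le_k {p : ℕ} (hp : 2 ≤ p) : Real.log (((p : ℝ) + 1) / p) ≤ k p := by
  have hp' : (2 : ℝ) ≤ p := by exact_mod_cast hp
  have h0 : 0 < (p : ℝ) := by linarith
  refine le_trans (log_upper ?_) (le_trans ?_ (k_lower hp))
  · rw [le_div_iff₀ h0]; linarith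
  · rw [inv_div]
    have h1 : (((p : ℝ) + 1) / p - p / ((p : ℝ) + 1)) / 2
        = (2 * (p : ℝ) + 1) / (2 * p * (p + 1)) := by
      field_simp
      ring
    rw [h1]
    have h2 : 0 < ((p : ℝ) + 1) * (2 * p - 1) := by
      have : 0 < (2 * (p : ℝ) - 1) := by linarith
      positivity
    rw [div_le_div_iff₀ (by positivity) h2]
    nlinarith [sq_nonneg (p : ℝ)]

/-- The divisors of `p * n`, for a prime `p` not dividing `n`. -/
lemma divisors_prime_mul {p n : ℕ} (hp : p.Prime) (hpn : ¬ p ∣ n) (hn : 0 < n) :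
    (p * n).divisors = n.divisors ∪ n.divisors.image (fun d => p * d) := by
  ext d
  simp only [Finset.mem_union, Finset.mem_image, Nat.mem_divisors]
  constructor
  · rintro ⟨h1, h2⟩
    by_cases hd : p ∣ d
    · right
      obtain ⟨e, rfl⟩ := hd
      exact ⟨e, ⟨Nat.dvd_of_mul_dvd_mul_left hp.pos h1, by omega⟩, rfl⟩
    · left
      refine ⟨?_, by omega⟩
      have : Nat.Coprime d p := ((Nat.Prime.coprime_iff_not_dvd hp).mpr hd).symm
      exact this.dvd_of_dvd_mul_left h1
  · rintro (⟨h1, h2⟩ | ⟨e, ⟨h1, h2⟩, rfl⟩)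
    · exact ⟨Dvd.dvd.mul_left h1 p, Nat.mul_ne_zero hp.ne_zero h2⟩
    · exact ⟨Nat.mul_dvd_mul_left p h1, Nat.mul_ne_zero hp.ne_zero h2⟩

lemma sum_divisors_prime_mul {p n : ℕ} (hp : p.Prime) (hpn : ¬ p ∣ n) (hn : 0 < n)
    (f : ℕ → ℝ) :
    ∑ d ∈ (p * n).divisors, f d = ∑ d ∈ n.divisors, f d + ∑ d ∈ n.divisors, f (p * d) := by
  rw [divisors_prime_mul hp hpn hn, Finset.sum_union, Finset.sum_image]
  · intro a _ b _ hab
    exact Nat.eq_of_mul_eq_mul_left hp.pos hab
  · rw [Finset.disjoint_left]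
    intro a ha hb
    obtain ⟨e, _, rfl⟩ := Finset.mem_image.mp hb
    exact hpn ((dvd_mul_right p e).trans (Nat.dvd_of_mem_divisors ha))

/-- The sum of divisors as a real number. -/
noncomputable def sg (n : ℕ) : ℝ := ∑ d ∈ n.divisors, (d : ℝ)

lemma sg_pos {n : ℕ} (hn : 0 < n) : 0 < sg n := by
  unfold sg
  apply Finset.sum_pos
  · intro d hd
    exact_mod_cast Nat.pos_of_mem_divisors hd
  · exact ⟨1, Nat.one_mem_divisors.mpr (by omega)⟩

lemma sg_mul {p n : ℕ} (hp : p.Prime) (hpn : ¬ p ∣ n) (hn : 0 < n) :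
    sg (p * n) = ((p : ℝ) + 1) * sg n := by
  unfold sg
  rw [sum_divisors_prime_mul hp hpn hn]
  push_cast
  rw [← Finset.mul_sum]
  ring

lemma KL_mul {p n : ℕ} (hp : p.Prime) (hpn : ¬ p ∣ n) (hn : 0 < n) :
    KL (p * n) = ((p : ℝ) + 1) * KL n
      + (p : ℝ) * Real.log ((p : ℝ) / ((p : ℝ) - 1)) * sg n := by
  unfold KL sg
  rw [sum_divisors_prime_mul hp hpn hn]
  have h : ∀ d ∈ n.divisors, ((p * d : ℕ) : ℝ) *
      Real.log (((p * d : ℕ) : ℝ) / (2 * (Nat.totient (p * d) : ℝ)))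
      = (p : ℝ) * ((d : ℝ) * Real.log ((d : ℝ) / (2 * (Nat.totient d : ℝ))))
        + (p : ℝ) * Real.log ((p : ℝ) / ((p : ℝ) - 1)) * (d : ℝ) := by
    intro d hd
    have hd0 : 0 < d := Nat.pos_of_mem_divisors hd
    have hpd : ¬ p ∣ d := fun h => hpn (h.trans (Nat.dvd_of_mem_divisors hd))
    have hco : Nat.Coprime p d := (Nat.Prime.coprime_iff_not_dvd hp).mpr hpd
    have hp2 : (2 : ℝ) ≤ p := by exact_mod_cast hp.two_le
    have hphi : (0 : ℝ) < Nat.totient d := by exact_mod_cast Nat.totient_pos.mpr hd0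
    have hd0' : (0 : ℝ) < d := by exact_mod_cast hd0
    rw [Nat.totient_mul hco, Nat.totient_prime hp]
    push_cast
    rw [Nat.cast_sub hp.one_lt.le]
    push_cast
    have e : (p : ℝ) * d / (2 * (((p : ℝ) - 1) * (Nat.totient d : ℝ)))
        = ((p : ℝ) / ((p : ℝ) - 1)) * ((d : ℝ) / (2 * (Nat.totient d : ℝ))) := by
      have h1 : (p : ℝ) - 1 ≠ 0 := by linarith
      field_simp
    rw [e, Real.log_mul]
    · ring
    · apply div_ne_zero <;> linarith
    · positivity
  rw [Finset.sum_congr rfl h, Finset.sum_add_distrib, ← Finset.mul_sum, ← Finset.mul_sum]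
  ring

/-- The product of a finite set of primes. -/
def prodOf (P : Finset ℕ) : ℕ := ∏ p ∈ P, p

lemma prodOf_pos {P : Finset ℕ} (hP : ∀ p ∈ P, p.Prime) : 0 < prodOf P :=
  Finset.prod_pos (fun p hp => (hP p hp).pos)

lemma not_dvd_prodOf {P : Finset ℕ} (hP : ∀ p ∈ P, p.Prime) {q : ℕ} (hq : q.Prime)
    (hqP : q ∉ P) : ¬ q ∣ prodOf P := by
  intro h
  obtain ⟨p, hp, hpq⟩ := (Prime.dvd_finsetProd_iff hq.prime _).mp h
  have := (Nat.prime_dvd_prime_iff_eq hq (hP p hp)).mp hpq
  exact hqP (this ▸ hp)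

/-- The formula `KL n = σ(n) (∑ k(p) - log 2)` for squarefree `n`. -/
lemma KL_prodOf (P : Finset ℕ) (hP : ∀ p ∈ P, p.Prime) :
    KL (prodOf P) = sg (prodOf P) * (∑ p ∈ P, k p - Real.log 2) := by
  induction P using Finset.induction_on with
  | empty =>
    simp [prodOf, KL, sg, Real.log_inv]
  | insert q P hq ih =>
    have hP' : ∀ p ∈ P, p.Prime := fun p hp => hP p (Finset.mem_insert_of_mem hp)
    have hqp : q.Prime := hP q (Finset.mem_insert_self q P)
    have e : prodOf (insert q P) = q * prodOf P := Finset.prod_insert hq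
    have hnd := not_dvd_prodOf hP' hqp hq
    rw [e, KL_mul hqp hnd (prodOf_pos hP'), sg_mul hqp hnd (prodOf_pos hP'), ih hP',
      Finset.sum_insert hq]
    unfold k
    have : ((q : ℝ) + 1) ≠ 0 := by positivity
    field_simp
    ring

lemma log_sg_prodOf (P : Finset ℕ) (hP : ∀ p ∈ P, p.Prime) :
    Real.log (sg (prodOf P)) = Real.log (prodOf P)
      + ∑ p ∈ P, Real.log (((p : ℝ) + 1) / p) := by
  induction P using Finset.induction_on with
  | empty =>
    simp [prodOf, sg]
  | insert q P hq ih =>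
    have hP' : ∀ p ∈ P, p.Prime := fun p hp => hP p (Finset.mem_insert_of_mem hp)
    have hqp : q.Prime := hP q (Finset.mem_insert_self q P)
    have e : prodOf (insert q P) = q * prodOf P := Finset.prod_insert hq
    have hnd := not_dvd_prodOf hP' hqp hq
    have hpos := prodOf_pos hP'
    have hq0 : (0 : ℝ) < q := by exact_mod_cast hqp.pos
    have hn0 : (0 : ℝ) < prodOf P := by exact_mod_cast hpos
    rw [e, sg_mul hqp hnd hpos, Finset.sum_insert hq, Real.log_mul (by positivity)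
      (sg_pos hpos).ne', ih hP', Nat.cast_mul, Real.log_mul hq0.ne' hn0.ne',
      Real.log_div (by positivity) hq0.ne']
    ring

/-- A divisor of `prodOf P` is `prodOf Q` for some `Q ⊆ P`. -/
lemma dvd_prodOf {P : Finset ℕ} (hP : ∀ p ∈ P, p.Prime) {d : ℕ} (hd : d ∣ prodOf P) :
    ∃ Q ⊆ P, d = prodOf Q := by
  induction P using Finset.induction_on generalizing d with
  | empty =>
    refine ⟨∅, Finset.Subset.refl _, ?_⟩
    simpa [prodOf] using hd
  | insert q P hq ih =>
    have hP' : ∀ p ∈ P, p.Prime := fun p hp => hP p (Finset.mem_insert_of_mem hp)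
    have hqp : q.Prime := hP q (Finset.mem_insert_self q P)
    have e : prodOf (insert q P) = q * prodOf P := Finset.prod_insert hq
    rw [e] at hd
    by_cases hqd : q ∣ d
    · obtain ⟨c, rfl⟩ := hqd
      obtain ⟨Q, hQ, rfl⟩ := ih hP' (Nat.dvd_of_mul_dvd_mul_left hqp.pos hd)
      refine ⟨insert q Q, Finset.insert_subset_insert q hQ, ?_⟩
      exact (Finset.prod_insert (f := fun p : ℕ => p) (fun h => hq (hQ h))).symm
    · have hc : Nat.Coprime d q := ((Nat.Prime.coprime_iff_not_dvd hqp).mpr hqd).symm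
      obtain ⟨Q, hQ, rfl⟩ := ih hP' (hc.dvd_of_dvd_mul_left hd)
      exact ⟨Q, hQ.trans (Finset.subset_insert q P), rfl⟩

/-- The set of primes `p` with `X < p ≤ Y`, together with `2`. -/
def PS (X Y : ℕ) : Finset ℕ := insert 2 ((Finset.Ioc X Y).filter Nat.Prime)

lemma PS_prime {X Y : ℕ} : ∀ p ∈ PS X Y, p.Prime := by
  intro p hp
  rcases Finset.mem_insert.mp hp with rfl | h
  · exact Nat.prime_two
  · exact (Finset.mem_filter.mp h).2

lemma sum_PS {X Y : ℕ} (hX : 2 ≤ X) :
    ∑ p ∈ PS X Y, k p = k 2 + ∑ p ∈ (Finset.Ioc X Y).filter Nat.Prime, k p := by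
  unfold PS
  rw [Finset.sum_insert]
  intro h
  have := (Finset.mem_Ioc.mp (Finset.mem_filter.mp h).1).1
  omega

lemma k_two : k 2 = 2 / 3 * Real.log 2 := by
  unfold k
  norm_num

/-- The sums of `k p` over primes diverge. -/
lemma exists_sum_ge (X : ℕ) (C : ℝ) :
    ∃ Y : ℕ, C ≤ ∑ p ∈ (Finset.Ioc X Y).filter Nat.Prime, k p := by
  have h1 := not_summable_one_div_on_primes
  have h2 : Filter.Tendsto (fun n : ℕ => ∑ i ∈ Finset.range n,
      Set.indicator {p : ℕ | p.Prime} (fun n : ℕ => (1 : ℝ) / n) i) Filter.atTop Filter.atTop := by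
    apply (not_summable_iff_tendsto_nat_atTop_of_nonneg _).mp h1
    intro n
    apply Set.indicator_nonneg
    intro m _
    positivity
  set A : ℝ := ∑ i ∈ Finset.range (X + 1),
      Set.indicator {p : ℕ | p.Prime} (fun n : ℕ => (1 : ℝ) / n) i with hA
  obtain ⟨N, hN⟩ := (Filter.tendsto_atTop.mp h2 (A + 2 * C)).exists_forall_of_atTop
  set M := max N (X + 1) with hM
  have h3 := hN M (le_max_left _ _)
  have h4 : ∑ i ∈ Finset.range M,
      Set.indicator {p : ℕ | p.Prime} (fun n : ℕ => (1 : ℝ) / n) i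
      = A + ∑ i ∈ Finset.Ico (X + 1) M,
        Set.indicator {p : ℕ | p.Prime} (fun n : ℕ => (1 : ℝ) / n) i := by
    rw [hA, Finset.range_eq_Ico, Finset.range_eq_Ico,
      Finset.sum_Ico_consecutive _ (Nat.zero_le _) (le_max_right _ _)]
  rw [h4] at h3
  refine ⟨M, ?_⟩
  have h5 : ∑ i ∈ Finset.Ico (X + 1) M,
      Set.indicator {p : ℕ | p.Prime} (fun n : ℕ => (1 : ℝ) / n) i
      ≤ 2 * ∑ p ∈ (Finset.Ioc X M).filter Nat.Prime, k p := by
    rw [Finset.mul_sum, Finset.sum_filter]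
    have hsub : Finset.Ico (X + 1) M ⊆ Finset.Ioc X M := by
      intro i hi
      rw [Finset.mem_Ico] at hi
      rw [Finset.mem_Ioc]
      omega
    refine le_trans (Finset.sum_le_sum (g := fun i => if i.Prime then 2 * k i else 0) ?_)
      (Finset.sum_le_sum_of_subset_of_nonneg hsub ?_)
    · intro i _
      by_cases hi : i.Prime
      · rw [Set.indicator_of_mem (show i ∈ {p : ℕ | p.Prime} from hi)]
        simp only [hi, if_true]
        have h2i : (2 : ℝ) ≤ i := by exact_mod_cast hi.two_le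
        have hk := k_lower hi.two_le
        have : 1 / (i : ℝ) ≤ 2 * (2 * (i : ℝ) / (((i : ℝ) + 1) * (2 * i - 1))) := by
          have h6 : 0 < ((i : ℝ) + 1) * (2 * i - 1) := by
            apply mul_pos <;> linarith
          rw [← mul_div_assoc, div_le_div_iff₀ (by linarith) h6]
          nlinarith
        linarith
      · rw [Set.indicator_of_notMem (show i ∉ {p : ℕ | p.Prime} from hi)]
        simp only [hi, if_false]
        exact le_rfl
    · intro i _ _
      by_cases hi : i.Prime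
      · simp only [hi, if_true]
        have := k_pos hi.two_le
        linarith
      · simp only [hi, if_false]
        exact le_rfl
  linarith

lemma numeric : 23 / 528 < 2 / 3 * Real.log 2 - Real.log (3 / 2) := by
  have h1 : Real.log (3 / 2) ≤ 0.40547 := by
    have e : (3 / 2 : ℝ) = (1 + 1 / 5) / (1 - 1 / 5) := by norm_num
    have h := Real.log_two_gt_d9
    rw [Real.log_le_iff_le_exp (by norm_num)]
    have h2 := Real.sum_le_exp_of_nonneg (x := 0.40547) (by norm_num) 7
    refine le_trans ?_ h2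
    norm_num [Finset.sum_range_succ, Nat.factorial]
  have h2 := Real.log_two_gt_d9
  norm_num at *
  linarith

/-- For each `X ≥ 22` there is a deficient KL-primitive number divisible by a prime `> X`. -/
theorem exists_large (X : ℕ) (hX : 22 ≤ X) :
    ∃ n : ℕ, X < n ∧ IsDeficient n ∧ KLPrimitive n := by
  classical
  have hex : ∃ Y : ℕ, Real.log 2 ≤ ∑ p ∈ PS X Y, k p := by
    obtain ⟨Y, hY⟩ := exists_sum_ge X (Real.log 2)
    refine ⟨Y, ?_⟩
    rw [sum_PS (by omega)]
    have := k_pos (p := 2) le_rfl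
    linarith
  set Y := Nat.find hex with hYdef
  have hY1 : Real.log 2 ≤ ∑ p ∈ PS X Y, k p := Nat.find_spec hex
  have hlog2 : 0 < Real.log 2 := Real.log_pos (by norm_num)
  have hXY : X < Y := by
    by_contra hcon
    have hcon := not_lt.mp hcon
    rw [sum_PS (by omega), Finset.Ioc_eq_empty (by omega), Finset.filter_empty,
      Finset.sum_empty, k_two] at hY1
    linarith
  have hY2 : ∑ p ∈ PS X (Y - 1), k p < Real.log 2 := by
    have := Nat.find_min hex (m := Y - 1) (by omega)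
    exact not_le.mp this
  have hYp : Y.Prime := by
    by_contra hcon
    have : PS X (Y - 1) = PS X Y := by
      unfold PS
      congr 1
      ext i
      simp only [Finset.mem_filter, Finset.mem_Ioc]
      constructor
      · rintro ⟨h1, h2⟩
        exact ⟨⟨h1.1, by omega⟩, h2⟩
      · rintro ⟨h1, h2⟩
        refine ⟨⟨h1.1, ?_⟩, h2⟩
        rcases Nat.lt_or_ge i Y with h | h
        · omega
        · have : i = Y := by omega
          exact absurd (this ▸ h2) hcon
    rw [this] at hY2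
    linarith
  have hYmem : Y ∈ PS X Y := by
    unfold PS
    apply Finset.mem_insert_of_mem
    rw [Finset.mem_filter, Finset.mem_Ioc]
    exact ⟨⟨hXY, le_rfl⟩, hYp⟩
  have hins : PS X (Y - 1) = (PS X Y).erase Y := by
    unfold PS
    ext i
    simp only [Finset.mem_erase, Finset.mem_insert, Finset.mem_filter, Finset.mem_Ioc]
    constructor
    · rintro (rfl | ⟨h1, h2⟩)
      · exact ⟨by omega, Or.inl rfl⟩
      · exact ⟨by omega, Or.inr ⟨⟨h1.1, by omega⟩, h2⟩⟩
    · rintro ⟨h0, rfl | ⟨h1, h2⟩⟩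
      · exact Or.inl rfl
      · exact Or.inr ⟨⟨h1.1, by omega⟩, h2⟩
  have hle : ∀ p ∈ PS X Y, 2 ≤ p ∧ p ≤ Y := by
    intro p hp
    refine ⟨(PS_prime p hp).two_le, ?_⟩
    rcases Finset.mem_insert.mp hp with rfl | h
    · omega
    · exact (Finset.mem_Ioc.mp (Finset.mem_filter.mp h).1).2
  have hpos : 0 < prodOf (PS X Y) := prodOf_pos PS_prime
  have hYdvd : Y ∣ prodOf (PS X Y) := Finset.dvd_prod_of_mem _ hYmem
  refine ⟨prodOf (PS X Y), lt_of_lt_of_le hXY (Nat.le_of_dvd hpos hYdvd), ?_, hpos, ?_, ?_⟩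
  · -- deficient
    refine ⟨hpos, ?_⟩
    have hsum : ∑ p ∈ PS X Y, k p < Real.log 2 + k Y := by
      have := Finset.sum_erase_add (PS X Y) k hYmem
      rw [← hins] at this
      linarith
    have hkY : k Y ≤ 23 / 528 := by
      refine le_trans (k_anti (p := 23) (by norm_num) (by omega)) ?_
      refine le_trans (k_upper (by norm_num)) ?_
      norm_num
    have hS : ∑ p ∈ PS X Y, Real.log (((p : ℝ) + 1) / p) < Real.log 2 := by
      have h1 : ∑ p ∈ PS X Y, Real.log (((p : ℝ) + 1) / p)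
          = Real.log (3 / 2) + ∑ p ∈ (Finset.Ioc X Y).filter Nat.Prime,
            Real.log (((p : ℝ) + 1) / p) := by
        unfold PS
        rw [Finset.sum_insert]
        · norm_num
        · intro h
          have := (Finset.mem_Ioc.mp (Finset.mem_filter.mp h).1).1
          omega
      have h2 : ∑ p ∈ (Finset.Ioc X Y).filter Nat.Prime, Real.log (((p : ℝ) + 1) / p)
          ≤ ∑ p ∈ (Finset.Ioc X Y).filter Nat.Prime, k p := by
        apply Finset.sum_le_sum
        intro p hp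
        exact log_succ_le_k (Finset.mem_filter.mp hp).2.two_le
      have h3 := sum_PS (X := X) (Y := Y) (by omega)
      have h4 := k_two
      have h5 := numeric
      linarith
    have hl := log_sg_prodOf (PS X Y) PS_prime
    have hn0 : (0 : ℝ) < prodOf (PS X Y) := by exact_mod_cast hpos
    have h6 : Real.log (sg (prodOf (PS X Y))) < Real.log (2 * (prodOf (PS X Y) : ℝ)) := by
      rw [Real.log_mul (by norm_num) hn0.ne']
      linarith
    have h7 : sg (prodOf (PS X Y)) < 2 * (prodOf (PS X Y) : ℝ) :=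
      (Real.log_lt_log_iff (sg_pos hpos) (by positivity)).mp h6
    unfold sg at h7
    have h8 : ((∑ d ∈ (prodOf (PS X Y)).divisors, d : ℕ) : ℝ)
        < ((2 * prodOf (PS X Y) : ℕ) : ℝ) := by
      push_cast
      exact h7
    exact Nat.cast_lt.mp h8
  · -- KL ≥ 0
    rw [KL_prodOf _ PS_prime]
    exact mul_nonneg (sg_pos hpos).le (by linarith)
  · -- primitive
    intro d hd hdn
    obtain ⟨Q, hQ, rfl⟩ := dvd_prodOf PS_prime hd
    have hQp : ∀ p ∈ Q, p.Prime := fun p hp => PS_prime p (hQ hp)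
    rw [KL_prodOf Q hQp]
    apply mul_neg_of_pos_of_neg (sg_pos (prodOf_pos hQp))
    have hne : Q ≠ PS X Y := by
      rintro rfl
      exact lt_irrefl _ hdn
    obtain ⟨p, hpP, hpQ⟩ := Finset.exists_of_ssubset (lt_of_le_of_ne hQ hne)
    have h1 : ∑ q ∈ Q, k q ≤ ∑ q ∈ (PS X Y).erase p, k q := by
      apply Finset.sum_le_sum_of_subset_of_nonneg
      · intro q hq
        rw [Finset.mem_erase]
        exact ⟨fun h => hpQ (h ▸ hq), hQ hq⟩
      · intro q hq _
        exact (k_pos (hle q (Finset.mem_of_mem_erase hq)).1).le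
    have h2 := Finset.sum_erase_add (PS X Y) k hpP
    have h3 := Finset.sum_erase_add (PS X Y) k hYmem
    rw [← hins] at h3
    have h4 : k Y ≤ k p := k_anti (hle p hpP).1 (hle p hpP).2
    linarith

/-- There are infinitely many positive integers that are both deficient and KL-primitive. -/
theorem result : {n : ℕ | IsDeficient n ∧ KLPrimitive n}.Infinite := by
  apply Set.infinite_of_forall_exists_gt
  intro a
  obtain ⟨n, h1, h2, h3⟩ := exists_large (max a 22) (le_max_right _ _)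
  exact ⟨n, ⟨h2, h3⟩, lt_of_le_of_lt (le_max_left _ _) h1⟩

end Pool.Agent.Results.MP_8dd099_nt.DeficientKLPrimitiveInfinite
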